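import Pool.Agent.Q274.DC.Stm

/-!
# Project DC (helper274), job AFF: the points of `y² + D y = x³` by cubic Gauss sums
-/

set_option autoImplicit false

namespace Pool.Agent.Q68.DC

open Pool.Agent.Q274.DC

lemma chi_neg {F : Type} [Field F] [Fintype F] (χ : MulChar F ℂ) (h3 : χ ^ 3 = 1) :
    χ (-1) = 1 := by
  have h1 : (χ ^ 3) (-1) = 1 := by
    rw [h3]
    exact MulChar.one_apply (isUnit_one.neg)
  rw [MulChar.pow_apply' χ (by norm_num), ← map_pow] at h1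
  have h2 : (-1 : F) ^ 3 = -1 := by ring
  rwa [h2] at h1

lemma chi_cube {F : Type} [Field F] [Fintype F] (χ : MulChar F ℂ) (h3 : χ ^ 3 = 1) (D : F)
    (hD : D ≠ 0) : χ D ^ 3 = 1 := by
  rw [← MulChar.pow_apply' χ (by norm_num), h3]
  exact MulChar.one_apply (isUnit_iff_ne_zero.2 hD)

lemma aff_sum {F : Type} [Field F] [Fintype F] (D : F) :
    aff D = ∑ y : F, (Nat.card {x : F // x ^ 3 = y ^ 2 + D * y} : ℤ) := by
  unfold aff
  rw [← Nat.cast_sum, ← Nat.card_sigma]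
  congr 1
  refine Nat.card_congr
    { toFun := fun P => ⟨P.1.2, ⟨P.1.1, P.2.symm⟩⟩
      invFun := fun s => ⟨(s.2.1, s.1), s.2.2.symm⟩
      left_inv := fun P => rfl
      right_inv := fun s => rfl }

theorem aff_eq : S_AFF := by
  intro F _ _ χ ψ hχ h3 hcnt hψ
  have hord : orderOf χ = 3 := by
    have : Fact (Nat.Prime 3) := ⟨Nat.prime_three⟩
    exact orderOf_eq_prime h3 hχ
  have hgg : gaussSum χ ψ * gaussSum (χ ^ 2) ψ = (Fintype.card F : ℂ) := by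
    have h1 := gaussSum_mul_gaussSum_pow_orderOf_sub_one hχ hψ
    rw [hord, chi_neg χ h3, one_mul] at h1
    exact h1
  refine ⟨hgg, fun D hD => ?_⟩
  obtain ⟨g, hg⟩ : ∃ g, g = gaussSum χ ψ := ⟨_, rfl⟩
  obtain ⟨g', hg'⟩ : ∃ g', g' = gaussSum (χ ^ 2) ψ := ⟨_, rfl⟩
  rw [← hg, ← hg'] at hgg ⊢
  have hχ2 : χ * χ ≠ 1 := by
    intro h
    apply hχ
    have h1 : χ ^ 3 = χ * χ * χ := by rw [pow_succ, pow_two]
    rw [h3, h, one_mul] at h1
    exact h1.symm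
  have h4 : χ ^ 2 * χ ^ 2 = χ := by
    rw [← pow_add]
    show χ ^ (3 + 1) = χ
    rw [pow_succ, h3, one_mul]
  have hJ1 : g' * jacobiSum χ χ = g * g := by
    have h1 := jacobiSum_mul_nontrivial hχ2 ψ
    rw [← pow_two, ← hg', ← hg] at h1
    exact h1
  have hJ2 : g * jacobiSum (χ ^ 2) (χ ^ 2) = g' * g' := by
    have h1 := jacobiSum_mul_nontrivial (χ := χ ^ 2) (φ := χ ^ 2) (by rw [h4]; exact hχ) ψ
    rw [h4, ← hg', ← hg] at h1
    exact h1
  have hχD := chi_cube χ h3 D hD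
  have hchar : ∀ z : F, χ ((-D * z) ^ 2 + D * (-D * z)) = χ D ^ 2 * (χ z * χ (1 - z)) := by
    intro z
    have h1 : (-D * z) ^ 2 + D * (-D * z) = (-1) * (D * D) * (z * (1 - z)) := by ring
    rw [h1, map_mul, map_mul, map_mul, map_mul, chi_neg χ h3]
    ring
  have hA : ∑ y : F, χ (y ^ 2 + D * y) = χ D ^ 2 * jacobiSum χ χ := by
    rw [← Equiv.sum_comp (Equiv.mulLeft₀ (-D) (neg_ne_zero.2 hD)), jacobiSum, Finset.mul_sum]
    exact Finset.sum_congr rfl fun z _ => hchar z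
  have hB : ∑ y : F, χ (y ^ 2 + D * y) ^ 2 = χ D * jacobiSum (χ ^ 2) (χ ^ 2) := by
    rw [← Equiv.sum_comp (Equiv.mulLeft₀ (-D) (neg_ne_zero.2 hD)), jacobiSum, Finset.mul_sum]
    refine Finset.sum_congr rfl fun z _ => ?_
    rw [MulChar.pow_apply' χ two_ne_zero, MulChar.pow_apply' χ two_ne_zero]
    have h5 := hchar z
    show χ ((-D * z) ^ 2 + D * (-D * z)) ^ 2 = _
    rw [h5]
    calc (χ D ^ 2 * (χ z * χ (1 - z))) ^ 2 = χ D ^ 3 * χ D * (χ z ^ 2 * χ (1 - z) ^ 2) := by ring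
      _ = χ D * (χ z ^ 2 * χ (1 - z) ^ 2) := by rw [hχD, one_mul]
  have haff : (aff D : ℂ) - (Fintype.card F : ℂ) =
      χ D ^ 2 * jacobiSum χ χ + χ D * jacobiSum (χ ^ 2) (χ ^ 2) := by
    rw [aff_sum]
    push_cast
    have h5 : ∑ y : F, (Nat.card {x : F // x ^ 3 = y ^ 2 + D * y} : ℂ) =
        ∑ y : F, (1 + χ (y ^ 2 + D * y) + χ (y ^ 2 + D * y) ^ 2) :=
      Finset.sum_congr rfl fun y _ => hcnt _
    rw [h5, Finset.sum_add_distrib, Finset.sum_add_distrib, hA, hB, Finset.sum_const,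
      Finset.card_univ, nsmul_eq_mul, mul_one]
    ring
  rw [haff, ← hgg]
  calc g * g' * (χ D ^ 2 * jacobiSum χ χ + χ D * jacobiSum (χ ^ 2) (χ ^ 2))
      = χ D ^ 2 * g * (g' * jacobiSum χ χ) + χ D * g' * (g * jacobiSum (χ ^ 2) (χ ^ 2)) := by ring
    _ = χ D ^ 2 * g ^ 3 + χ D * g' ^ 3 := by
        rw [hJ1, hJ2]
        ring

end Pool.Agent.Q68.DC
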